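import Mathlib
import Pool.Agent.Q258.LQ.Fin6

/-!
# Linnik's asymptotic formula for towers of solvable Galois extensions above arbitrary fields

Let `K` be a number field. The fields `L` between `K` and its algebraic closure, of degree `r b` over
`K`, which are obtained from an arbitrary (not fixed) extension `F` of `K` of degree `r` by successive
Galois extensions with solvable group are counted, `|d_L| ≤ X`: if `b` is even and `r < b`, or if
`b = 2 ^ i`, `i ≥ 1`, and `r < 2 b`, then the number of these fields is `~ c X`, `c > 0`. For all `r`, `b` an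
upper bound.
-/

set_option autoImplicit false

open Filter

namespace Pool.Agent.Results.MP_bf81c2_nt.ArbitraryBottomFields

/-- `F ⊆ L`, and `L / F` is a finite Galois extension with solvable Galois group. -/
def SolvableGalois {K : Type} [Field K] (F L : IntermediateField K (AlgebraicClosure K)) : Prop :=
  ∃ h : F ≤ L, FiniteDimensional F (IntermediateField.extendScalars h) ∧
    IsGalois F (IntermediateField.extendScalars h) ∧
    Group.IsSolvable
      ((IntermediateField.extendScalars h) ≃ₐ[F] (IntermediateField.extendScalars h))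

/-- `L` is obtained from `F` by (zero or more) successive solvable Galois extensions. -/
inductive Tower {K : Type} [Field K] (F : IntermediateField K (AlgebraicClosure K)) :
    IntermediateField K (AlgebraicClosure K) → Prop
  | base : Tower F F
  | step (M L : IntermediateField K (AlgebraicClosure K)) :
      Tower F M → SolvableGalois M L → Tower F L

/-- `N K r b X`: the number of the fields `L` between `K` and its algebraic closure with
`[L : K] = r b` and `|d_L| ≤ X` such that `L` is a tower above some field `F` with `[F : K] = r`. -/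
noncomputable def N (K : Type) [Field K] (r b : ℕ) (X : ℝ) : ℕ :=
  Set.ncard {L : IntermediateField K (AlgebraicClosure K) | Module.finrank K L = r * b ∧
    (∃ F : IntermediateField K (AlgebraicClosure K), Module.finrank K F = r ∧ Tower F L) ∧
    ∃ h : NumberField L, ((|@NumberField.discr L _ h| : ℤ) : ℝ) ≤ X}

theorem tower_iff {K : Type} [Field K] (F L : IntermediateField K (AlgebraicClosure K)) :
    Tower F L ↔ Pool.Agent.Q258.LQ.STow {F} L := by
  constructor
  · intro h
    induction h with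
    | base => exact Pool.Agent.Q258.LQ.STow.base F rfl
    | step M L _ hs ih => exact Pool.Agent.Q258.LQ.STow.step M L ih hs
  · intro h
    induction h with
    | base M hM => rw [Set.mem_singleton_iff.1 hM]; exact Tower.base
    | step M L _ hs ih => exact Tower.step M L ih hs

theorem N_eq (K : Type) [Field K] [NumberField K] (r b : ℕ) (hr : 0 < r) (hb : 0 < b) (X : ℝ) :
    N K r b X = Set.ncard {L : IntermediateField K (AlgebraicClosure K) |
      L ∈ Pool.Agent.Q258.LQ.TA K (AlgebraicClosure K) (r * b) b ∧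
        Pool.Agent.TH444.ML.dsc L ≤ X} := by
  unfold N
  congr 1
  ext L
  constructor
  · rintro ⟨h1, ⟨F, h2, h3⟩, h4⟩
    refine ⟨⟨h1, F, ?_, by rw [h2]⟩,
      (Pool.Agent.Q258.LQ.dsc_le_iff (r * b) (by positivity) L h1 X).1 h4⟩
    exact (Pool.Agent.Q258.LQ.sTow_iff {F} L).1 ((tower_iff F L).1 h3)
  · rintro ⟨⟨h1, F, h2, h3⟩, h4⟩
    refine ⟨h1, ⟨F, Nat.eq_of_mul_eq_mul_right hb h3, ?_⟩,
      (Pool.Agent.Q258.LQ.dsc_le_iff (r * b) (by positivity) L h1 X).2 h4⟩
    exact (tower_iff F L).2 ((Pool.Agent.Q258.LQ.sTow_iff {F} L).2 h2)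

end Pool.Agent.Results.MP_bf81c2_nt.ArbitraryBottomFields

open Pool.Agent.Results.MP_bf81c2_nt.ArbitraryBottomFields in
/-- Linnik's asymptotic formula `~ c X` for the towers of solvable Galois extensions of degree `b`
above arbitrary extensions of `K` of degree `r`, for even `b > r` and for `b = 2 ^ i > r / 2`, `i ≥ 1`; upper
bounds for all `r`, `b`. -/
theorem Pool.Agent.Results.MP_bf81c2_nt.ArbitraryBottomFields.result (K : Type) [Field K]
    [NumberField K] :
    (∀ r b : ℕ, 0 < r → Even b → r < b → ∃ c : ℝ, 0 < c ∧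
      Tendsto (fun X : ℝ => (N K r b X : ℝ) / X) atTop (nhds c)) ∧
    (∀ r i : ℕ, 0 < r → 1 ≤ i → r < 2 ^ (i + 1) → ∃ c : ℝ, 0 < c ∧
      Tendsto (fun X : ℝ => (N K r (2 ^ i) X : ℝ) / X) atTop (nhds c)) ∧
    (∀ r b : ℕ, 0 < r → 0 < b → ∀ ε : ℝ, 0 < ε → ∃ C : ℝ, ∀ X : ℝ, 1 ≤ X →
      (N K r b X : ℝ) ≤ C * X ^ (max 1 (3 / 4 + (r : ℝ) / (4 * b)) + ε)) ∧
    (∀ r i : ℕ, 0 < r → ∀ ε : ℝ, 0 < ε → ∃ C : ℝ, ∀ X : ℝ, 1 ≤ X →
      (N K r (2 ^ i) X : ℝ) ≤ C * X ^ (max 1 (1 / 2 + (r : ℝ) / (4 * 2 ^ i)) + ε)) := by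
  refine ⟨?_, ?_, ?_, ?_⟩
  · intro r b hr hb hrb
    obtain ⟨c, hc, h⟩ := Pool.Agent.Q258.LQ.fin_arb_even (K := K) (Ω := AlgebraicClosure K)
      r b hr hb hrb
    refine ⟨c, hc, ?_⟩
    simp only [N_eq K r b hr (by omega)]
    exact h
  · intro r i hr hi hri
    obtain ⟨c, hc, h⟩ := Pool.Agent.Q258.LQ.fin_arb_two (K := K) (Ω := AlgebraicClosure K)
      r i hr hi hri
    refine ⟨c, hc, ?_⟩
    simp only [N_eq K r (2 ^ i) hr (by positivity)]
    exact h
  · intro r b hr hb ε hε
    obtain ⟨C, hC⟩ := Pool.Agent.Q258.LQ.fin_TA_bound (K := K) (Ω := AlgebraicClosure K)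
      r b hr hb ε hε
    exact ⟨C, fun X hX => by rw [N_eq K r b hr hb X]; exact hC X hX⟩
  · intro r i hr ε hε
    obtain ⟨C, hC⟩ := Pool.Agent.Q258.LQ.fin_TA_two (K := K) (Ω := AlgebraicClosure K)
      r i hr ε hε
    exact ⟨C, fun X hX => by rw [N_eq K r (2 ^ i) hr (by positivity) X]; exact hC X hX⟩
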