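import Mathlib
import Pool.Agent.Q17.CL.Cls

/-!
# Linnik's asymptotic formula for a class of extensions closed under composita and normal closures

Let `K` be a number field. Consider the smallest class of extensions of `K` which contains `K`, all
cubic extensions of `K` and all `M` which have a subfield `F` with the same normal closure and
`2 [F : K] ^ 2 < [M : K]`, and which is closed under

* Galois extensions with solvable group,
* composita, and fields between a member and its normal closure over `K`,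
* fields between `F E` and its normal closure, `F` a member, `E` any extension of `K` such that
  `4 [E : K] ^ 2` is at most the degree of the field.

The number of the members of a given even degree `n` with `|d_L| ≤ X` is `~ c X`, `c > 0`.
-/

set_option autoImplicit false

open Filter

namespace Pool.Agent.Results.MP_bf81c2_nt.ClosedClasses

/-- `F ⊆ L`, and `L / F` is a finite Galois extension with solvable Galois group. -/
def SolvableGalois {K : Type} [Field K] (F L : IntermediateField K (AlgebraicClosure K)) : Prop :=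
  ∃ h : F ≤ L, FiniteDimensional F (IntermediateField.extendScalars h) ∧
    IsGalois F (IntermediateField.extendScalars h) ∧
    Group.IsSolvable
      ((IntermediateField.extendScalars h) ≃ₐ[F] (IntermediateField.extendScalars h))

/-- `L` contains the composite of `F` and `E` and lies in the normal closure of the composite over
`K` (if `E = F` or `E = K`: `L` is between `F` and its normal closure). -/
def Between {K : Type} [Field K] (F E L : IntermediateField K (AlgebraicClosure K)) : Prop :=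
  F ≤ L ∧ E ≤ L ∧ L ≤ IntermediateField.normalClosure K
    (F ⊔ E : IntermediateField K (AlgebraicClosure K)) (AlgebraicClosure K)

/-- The smallest class which contains `𝓑` and is closed under solvable Galois extensions, under fields
between the composite of two members and its normal closure, and under fields `L` between `F E` and
its normal closure, where `F` is a member and `4 [E : K] ^ 2 ≤ [L : K]`. -/
inductive Class {K : Type} [Field K] (𝓑 : Set (IntermediateField K (AlgebraicClosure K))) :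
    IntermediateField K (AlgebraicClosure K) → Prop
  | base (F : IntermediateField K (AlgebraicClosure K)) : F ∈ 𝓑 → Class 𝓑 F
  | step (F L : IntermediateField K (AlgebraicClosure K)) :
      Class 𝓑 F → SolvableGalois F L → Class 𝓑 L
  | comp (F E L : IntermediateField K (AlgebraicClosure K)) :
      Class 𝓑 F → Class 𝓑 E → Between F E L → Class 𝓑 L
  | small (F E L : IntermediateField K (AlgebraicClosure K)) :
      Class 𝓑 F → Between F E L → 4 * Module.finrank K E ^ 2 ≤ Module.finrank K L → Class 𝓑 L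

/-- `L` is a nontrivial solvable Galois extension of a member of the class of `𝓑`. -/
def Proper {K : Type} [Field K] (𝓑 : Set (IntermediateField K (AlgebraicClosure K))) :
    Set (IntermediateField K (AlgebraicClosure K)) :=
  {L | ∃ F : IntermediateField K (AlgebraicClosure K), Class 𝓑 F ∧ F ≠ L ∧ SolvableGalois F L}

/-- `K`, the cubic extensions of `K`, and the fields `M` which have a subfield `F` with the same
normal closure and `2 [F : K] ^ 2 < [M : K]`. -/
def Start (K : Type) [Field K] : Set (IntermediateField K (AlgebraicClosure K)) :=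
  {M | M = ⊥ ∨ Module.finrank K M = 3 ∨ ∃ F : IntermediateField K (AlgebraicClosure K),
    Between F ⊥ M ∧ 2 * Module.finrank K F ^ 2 < Module.finrank K M}

/-- `N(S, n; X)`: the number of the fields `L` in `S` of degree `n` over `K` with `|d_L| ≤ X`. -/
noncomputable def N {K : Type} [Field K] (S : Set (IntermediateField K (AlgebraicClosure K)))
    (n : ℕ) (X : ℝ) : ℕ :=
  Set.ncard {L : IntermediateField K (AlgebraicClosure K) | L ∈ S ∧ Module.finrank K L = n ∧
    ∃ h : NumberField L, ((|@NumberField.discr L _ h| : ℤ) : ℝ) ≤ X}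

section

open Pool.Agent.Q17.CL

variable {K : Type} [Field K] [NumberField K]

theorem cls_iff (𝓑 : Set (IntermediateField K (AlgebraicClosure K)))
    (L : IntermediateField K (AlgebraicClosure K)) : Class 𝓑 L ↔ Cls 𝓑 L := by
  constructor
  · intro h
    induction h with
    | base F hF => exact Cls.base F hF
    | step F L _ hs ih => exact Cls.step F L ih hs
    | comp F E L _ _ h ih ih' => exact Cls.comp F E L ih ih' h.1 h.2.1 h.2.2
    | small F E L _ h h2 ih => exact Cls.small F E L ih h.1 h.2.1 h.2.2 h2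
  · intro h
    induction h with
    | base F hF => exact Class.base F hF
    | step F L _ hs ih => exact Class.step F L ih hs
    | comp F E L _ _ h1 h2 h3 ih ih' => exact Class.comp F E L ih ih' ⟨h1, h2, h3⟩
    | small F E L _ h1 h2 h3 h4 ih => exact Class.small F E L ih ⟨h1, h2, h3⟩ h4

theorem cls_eq (𝓑 : Set (IntermediateField K (AlgebraicClosure K))) :
    {L | Class 𝓑 L} = {L | Cls 𝓑 L} := by
  ext L
  exact cls_iff 𝓑 L

theorem proper_eq (𝓑 : Set (IntermediateField K (AlgebraicClosure K))) :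
    Proper 𝓑 = Pool.Agent.Q258.LQ.SAb {L | Cls 𝓑 L} := by
  ext L
  rw [sAb_cls]
  constructor
  · rintro ⟨F, h1, h2, h3⟩
    exact ⟨F, (cls_iff 𝓑 F).1 h1, h2, h3⟩
  · rintro ⟨F, h1, h2, h3⟩
    exact ⟨F, (cls_iff 𝓑 F).2 h1, h2, h3⟩

theorem N_eq (S : Set (IntermediateField K (AlgebraicClosure K))) (n : ℕ) (hn : 0 < n) (X : ℝ) :
    N S n X = (Cnt S n X).ncard := by
  unfold N Cnt
  congr 1
  ext L
  simp only [Set.mem_ofPred_eq]
  constructor
  · rintro ⟨h1, h2, h3⟩
    exact ⟨h1, h2, (Pool.Agent.Q258.LQ.dsc_le_iff n hn L h2 X).1 h3⟩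
  · rintro ⟨h1, h2, h3⟩
    exact ⟨h1, h2, (Pool.Agent.Q258.LQ.dsc_le_iff n hn L h2 X).2 h3⟩

theorem PB_iff (S : Set (IntermediateField K (AlgebraicClosure K))) (n : ℕ) (hn : 0 < n) (θ : ℝ) :
    PB S n θ ↔ ∃ C : ℝ, ∀ X : ℝ, 1 ≤ X → (N S n X : ℝ) ≤ C * X ^ θ := by
  simp only [N_eq S n hn]
  rfl

theorem start_sub : Start K ⊆ ({⊥} ∪ {L | Module.finrank K L = 3}) ∪
    Small K (AlgebraicClosure K) := by
  rintro M (h | h | ⟨F, ⟨h1, -, h2⟩, h3⟩)
  · exact Or.inl (Or.inl h)
  · exact Or.inl (Or.inr h)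
  · rw [sup_bot_eq] at h2
    exact Or.inr ⟨F, h1, h2, h3⟩

theorem start_good : Good (Start K) := by
  intro m hm
  obtain ⟨θ, h1, h2, h3⟩ := small_PB (K := K) (Ω := AlgebraicClosure K) m hm
  obtain ⟨θ', h4, h5⟩ : ∃ θ' : ℝ, θ' < 3 / 2 ∧
      PB ({F : IntermediateField K (AlgebraicClosure K) | F = ⊥ ∨ Module.finrank K F = 3}) m θ' :=
    Pool.Agent.Q258.LQ.base_cubic m hm
  refine ⟨max θ θ', max_lt (by linarith) h4, ?_⟩
  refine PB.mono hm le_rfl (fun L hL _ => ?_)
    ((h5.mono hm (le_max_right _ _) fun _ h _ => h).union hm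
      (h3.mono hm (le_max_left _ _) fun _ h _ => h))
  exact start_sub hL

theorem start_few (m : ℕ) (hm : 2 ≤ m) (h3 : m ≠ 3) : ∃ θ : ℝ, θ < 1 ∧ PB (Start K) m θ := by
  obtain ⟨θ, h1, h2, h4⟩ := small_PB (K := K) (Ω := AlgebraicClosure K) m (by omega)
  refine ⟨θ, h1, h4.mono (by omega) le_rfl ?_⟩
  intro L hL hd
  rcases start_sub hL with (h5 | h5) | h5
  · exfalso
    rw [Set.mem_singleton_iff.1 h5, IntermediateField.finrank_bot] at hd
    omega
  · exfalso
    have h6 : Module.finrank K L = 3 := h5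
    omega
  · exact h5

theorem exists_member (𝓑 : Set (IntermediateField K (AlgebraicClosure K))) (hb : ⊥ ∈ 𝓑) (k : ℕ)
    (hk : 0 < k) : ∃ F, Cls 𝓑 F ∧ Module.finrank K F = k := by
  obtain ⟨F, hF1, hF2⟩ := Pool.Agent.Q258.LQ.exists_PT 𝓑 hb k hk
  have h1 : ∀ F, Pool.Agent.Q258.LQ.STow 𝓑 F → Cls 𝓑 F := by
    intro F hF
    induction hF with
    | base F hF => exact Cls.base F hF
    | step F L _ hs ih => exact Cls.step F L ih hs
  exact ⟨F, h1 F ((Pool.Agent.Q258.LQ.sTow_iff _ F).2 hF1), hF2⟩

end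

end Pool.Agent.Results.MP_bf81c2_nt.ClosedClasses

open Pool.Agent.Results.MP_bf81c2_nt.ClosedClasses in
/-- (1) The number of the members of even degree `n` of the class of `Start K` with `|d_L| ≤ X` is
`~ c X`, `c > 0`. (2) In odd degree `n ≥ 5` it is `O(X ^ η)`, `η < 1`. (3) If the family `𝓑` has
`O(X ^ θ)` members of each degree `m`, with `θ = θ(m) < 3/2`, then so does its class; and if the class
has a member of degree `k`, then the number of the nontrivial solvable Galois extensions of members of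
the class, of degree `2 k` over `K`, with `|d_L| ≤ X`, is `~ c X`, `c > 0`. -/
theorem Pool.Agent.Results.MP_bf81c2_nt.ClosedClasses.result (K : Type) [Field K]
    [NumberField K] :
    (∀ n : ℕ, 2 ≤ n → Even n → ∃ c : ℝ, 0 < c ∧
      Tendsto (fun X : ℝ => (N {L | Class (Start K) L} n X : ℝ) / X) atTop (nhds c)) ∧
    (∀ n : ℕ, 5 ≤ n → Odd n → ∃ η : ℝ, η < 1 ∧ ∃ C : ℝ, ∀ X : ℝ, 1 ≤ X →
      (N {L | Class (Start K) L} n X : ℝ) ≤ C * X ^ η) ∧
    (∀ 𝓑 : Set (IntermediateField K (AlgebraicClosure K)),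
      (∀ m : ℕ, 0 < m → ∃ θ : ℝ, θ < 3 / 2 ∧ ∃ C : ℝ, ∀ X : ℝ, 1 ≤ X →
        (N 𝓑 m X : ℝ) ≤ C * X ^ θ) →
      (∀ m : ℕ, 0 < m → ∃ θ : ℝ, θ < 3 / 2 ∧ ∃ C : ℝ, ∀ X : ℝ, 1 ≤ X →
        (N {L | Class 𝓑 L} m X : ℝ) ≤ C * X ^ θ) ∧
      ∀ k : ℕ, 0 < k → (∃ F : IntermediateField K (AlgebraicClosure K), Class 𝓑 F ∧
        Module.finrank K F = k) →
      ∃ c : ℝ, 0 < c ∧
        Tendsto (fun X : ℝ => (N (Proper 𝓑) (2 * k) X : ℝ) / X) atTop (nhds c)) := by
  refine ⟨?_, ?_, ?_⟩
  · rintro n hn ⟨k, hk⟩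
    have hk0 : 0 < k := by omega
    have hn2 : n = 2 * k := by omega
    subst hn2
    obtain ⟨c, hc, hlim⟩ := Pool.Agent.Q17.CL.main_even' start_good k hk0
      (exists_member (Start K) (Or.inl rfl) k hk0) (start_few (2 * k) hn (by omega))
    refine ⟨c, hc, ?_⟩
    rw [cls_eq]
    simp only [N_eq _ (2 * k) (by omega : 0 < 2 * k)]
    exact hlim
  · intro n hn ho
    obtain ⟨η, hη, h⟩ := Pool.Agent.Q17.CL.main_odd start_good n ho
      (start_few (K := K) n (by omega) (by omega))
    rw [cls_eq]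
    exact ⟨η, hη, (PB_iff _ n (by omega) η).1 h⟩
  · intro 𝓑 hB
    have hB' : Pool.Agent.Q17.CL.Good 𝓑 := fun m hm => by
      obtain ⟨θ, hθ, h⟩ := hB m hm
      exact ⟨θ, hθ, (PB_iff 𝓑 m hm θ).2 h⟩
    refine ⟨fun m hm => ?_, fun k hk hne => ?_⟩
    · obtain ⟨θ, hθ, h⟩ := Pool.Agent.Q17.CL.good_cls hB' m hm
      rw [cls_eq]
      exact ⟨θ, hθ, (PB_iff _ m hm θ).1 h⟩
    · obtain ⟨F, hF, hd⟩ := hne
      obtain ⟨c, hc, hlim⟩ := Pool.Agent.Q17.CL.main_even hB' k hk
        ⟨F, (cls_iff 𝓑 F).1 hF, hd⟩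
      refine ⟨c, hc, ?_⟩
      rw [proper_eq]
      simp only [N_eq _ (2 * k) (by omega : 0 < 2 * k)]
      exact hlim
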