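import Mathlib
import Pool.Agent.Q258.LQ.Asm5
import Pool.Agent.Q258.LQ.Fin4

/-!
# Counting the extensions of degree `n` with a nontrivial automorphism

Let `K` be a number field. The number of the fields `L` between `K` and its algebraic closure, of degree
`n` over `K`, with a nontrivial automorphism over `K` and with `|d_L| ≤ X` is
`O(X ^ (max(1, 1/2 + n/16) + ε))`, for every `n` and `ε > 0` (the bound of Schmidt for all `L` is
`X ^ (1/2 + n/4)`, Linnik's conjecture for all `L` is `~ c X`); for odd `n` it is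
`O(X ^ (max(3/4, 2/3 + n/36) + ε))`, so `o(X)` for odd `n ≤ 11`. The method is a reduction: a bound
`O(X ^ θ)` for all extensions of degree `k` gives a bound for those of degree `k ℓ` which are Galois over
a subfield of degree `k`, `ℓ` prime.
-/

set_option autoImplicit false

namespace Pool.Agent.Results.MP_bf81c2_nt.NontrivialAutomorphisms

/-- `N K n X`: the number of the fields `L` between `K` and its algebraic closure with `[L : K] = n`,
with an automorphism over `K` other than the identity, and with `|d_L| ≤ X`. -/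
noncomputable def N (K : Type) [Field K] (n : ℕ) (X : ℝ) : ℕ :=
  Set.ncard {L : IntermediateField K (AlgebraicClosure K) | Module.finrank K L = n ∧
    (∃ σ : L ≃ₐ[K] L, σ ≠ 1) ∧
    ∃ h : NumberField L, ((|@NumberField.discr L _ h| : ℤ) : ℝ) ≤ X}

/-- `A K k X`: the number of all fields `L` between `K` and its algebraic closure with `[L : K] = k` and
`|d_L| ≤ X`. -/
noncomputable def A (K : Type) [Field K] (k : ℕ) (X : ℝ) : ℕ :=
  Set.ncard {L : IntermediateField K (AlgebraicClosure K) | Module.finrank K L = k ∧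
    ∃ h : NumberField L, ((|@NumberField.discr L _ h| : ℤ) : ℝ) ≤ X}

/-- `G K k l X`: the number of the fields `L` between `K` and its algebraic closure with
`[L : K] = k l` and `|d_L| ≤ X` such that `L / F` is Galois for some field `F` with `[F : K] = k`. -/
noncomputable def G (K : Type) [Field K] (k l : ℕ) (X : ℝ) : ℕ :=
  Set.ncard {L : IntermediateField K (AlgebraicClosure K) | Module.finrank K L = k * l ∧
    (∃ F : IntermediateField K (AlgebraicClosure K), Module.finrank K F = k ∧ ∃ h : F ≤ L,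
      IsGalois F (IntermediateField.extendScalars h)) ∧
    ∃ h : NumberField L, ((|@NumberField.discr L _ h| : ℤ) : ℝ) ≤ X}

theorem N_eq (K : Type) [Field K] [NumberField K] (n : ℕ) (hn : 0 < n) (X : ℝ) :
    N K n X = Set.ncard {L : IntermediateField K (AlgebraicClosure K) |
      L ∈ Pool.Agent.Q258.LQ.Aut1 K (AlgebraicClosure K) n ∧
        Pool.Agent.TH444.ML.dsc L ≤ X} := by
  unfold N
  congr 1
  ext L
  constructor
  · rintro ⟨h1, h2, h3⟩
    exact ⟨⟨h1, h2⟩, (Pool.Agent.Q258.LQ.dsc_le_iff n hn L h1 X).1 h3⟩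
  · rintro ⟨⟨h1, h2⟩, h3⟩
    exact ⟨h1, h2, (Pool.Agent.Q258.LQ.dsc_le_iff n hn L h1 X).2 h3⟩

theorem A_eq (K : Type) [Field K] [NumberField K] (k : ℕ) (hk : 0 < k) (X : ℝ) :
    A K k X = Set.ncard {L : IntermediateField K (AlgebraicClosure K) |
      L ∈ {F : IntermediateField K (AlgebraicClosure K) | Module.finrank K F = k} ∧
        Pool.Agent.TH444.ML.dsc L ≤ X} := by
  unfold A
  congr 1
  ext L
  constructor
  · rintro ⟨h1, h3⟩
    exact ⟨h1, (Pool.Agent.Q258.LQ.dsc_le_iff k hk L h1 X).1 h3⟩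
  · rintro ⟨h1, h3⟩
    exact ⟨h1, (Pool.Agent.Q258.LQ.dsc_le_iff k hk L h1 X).2 h3⟩

theorem G_eq (K : Type) [Field K] [NumberField K] (k l : ℕ) (hk : 0 < k) (hl : 0 < l) (X : ℝ) :
    G K k l X = Set.ncard {L : IntermediateField K (AlgebraicClosure K) |
      L ∈ Pool.Agent.Q258.LQ.GG l
        {F : IntermediateField K (AlgebraicClosure K) | Module.finrank K F = k} ∧
        Pool.Agent.TH444.ML.dsc L ≤ X} := by
  unfold G
  congr 1
  ext L
  constructor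
  · rintro ⟨h1, ⟨F, h2, h, hg⟩, h3⟩
    refine ⟨⟨F, h2, h, hg, ?_⟩,
      (Pool.Agent.Q258.LQ.dsc_le_iff (k * l) (by positivity) L h1 X).1 h3⟩
    have h4 := Pool.Agent.Q258.LQ.finrank_extend h
    rw [h1, h2] at h4
    exact Nat.eq_of_mul_eq_mul_left hk h4
  · rintro ⟨⟨F, h2, h, hg, h5⟩, h3⟩
    have h4 := Pool.Agent.Q258.LQ.finrank_extend h
    rw [h5, show Module.finrank K F = k from h2] at h4
    exact ⟨h4.symm, ⟨F, h2, h, hg⟩,
      (Pool.Agent.Q258.LQ.dsc_le_iff (k * l) (by positivity) L h4.symm X).2 h3⟩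

/-- the hypothesis of the reduction -/
theorem hasBound_of (K : Type) [Field K] [NumberField K] (k : ℕ) (hk : 0 < k) (θ : ℝ)
    (h : ∃ C : ℝ, ∀ X : ℝ, 1 ≤ X → (A K k X : ℝ) ≤ C * X ^ θ) :
    Pool.Agent.Q258.LQ.HasBound
      {F : IntermediateField K (AlgebraicClosure K) | Module.finrank K F = k} θ := by
  obtain ⟨C, hC⟩ := h
  refine ⟨|C|, abs_nonneg _, fun X hX => ⟨?_, ?_⟩⟩
  · exact Pool.Agent.Q258.LQ.finite_dsc k hk X
  · rw [← A_eq K k hk X]
    refine (hC X hX).trans ?_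
    have : 0 ≤ X ^ θ := by positivity
    exact mul_le_mul_of_nonneg_right (le_abs_self C) this

theorem step_two (K : Type) [Field K] [NumberField K] (k : ℕ) (hk : 0 < k) (θ e : ℝ) (hθ : 0 < θ)
    (h : ∃ C : ℝ, ∀ X : ℝ, 1 ≤ X → (A K k X : ℝ) ≤ C * X ^ θ) (h1 : 1 ≤ e)
    (h2 : 1 / 4 + θ / 2 < e) : ∃ C : ℝ, ∀ X : ℝ, 1 ≤ X → (G K k 2 X : ℝ) ≤ C * X ^ e := by
  obtain ⟨C, -, hC⟩ := Pool.Agent.Q258.LQ.HasBound.step Pool.Agent.Q258.LQ.inp hk
    (fun F hF => hF) hθ (hasBound_of K k hk θ h) Nat.prime_two (e := e)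
    (by rw [if_pos rfl]; exact h1) (by rw [if_pos rfl]; exact h2)
  exact ⟨C, fun X hX => by rw [G_eq K k 2 hk (by norm_num) X]; exact (hC X hX).2⟩

theorem step_odd (K : Type) [Field K] [NumberField K] (k l : ℕ) (hk : 0 < k) (hl : l.Prime)
    (hl2 : l ≠ 2) (θ e : ℝ) (hθ : 0 < θ)
    (h : ∃ C : ℝ, ∀ X : ℝ, 1 ≤ X → (A K k X : ℝ) ≤ C * X ^ θ) (h1 : 3 / 4 ≤ e)
    (h2 : 1 / 2 + θ / l < e) : ∃ C : ℝ, ∀ X : ℝ, 1 ≤ X → (G K k l X : ℝ) ≤ C * X ^ e := by
  obtain ⟨C, -, hC⟩ := Pool.Agent.Q258.LQ.HasBound.step Pool.Agent.Q258.LQ.inp hk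
    (fun F hF => hF) hθ (hasBound_of K k hk θ h) hl (e := e)
    (by rw [if_neg hl2]; exact h1) (by rw [if_neg hl2]; exact h2)
  exact ⟨C, fun X hX => by rw [G_eq K k l hk hl.pos X]; exact (hC X hX).2⟩

end Pool.Agent.Results.MP_bf81c2_nt.NontrivialAutomorphisms

open Pool.Agent.Results.MP_bf81c2_nt.NontrivialAutomorphisms in
/-- Bounds for the number of the extensions of `K` of degree `n` with a nontrivial automorphism:
`O(X ^ (max(1, 1/2 + n/16) + ε))` for all `n`, and `O(X ^ (max(3/4, 2/3 + n/36) + ε))` for odd `n`; and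
the reduction to the number of all extensions of smaller degree. -/
theorem Pool.Agent.Results.MP_bf81c2_nt.NontrivialAutomorphisms.result (K : Type) [Field K]
    [NumberField K] :
    (∀ n : ℕ, 0 < n → ∀ ε : ℝ, 0 < ε → ∃ C : ℝ, ∀ X : ℝ, 1 ≤ X →
      (N K n X : ℝ) ≤ C * X ^ (max 1 (1 / 2 + (n : ℝ) / 16) + ε)) ∧
    (∀ n : ℕ, Odd n → ∀ ε : ℝ, 0 < ε → ∃ C : ℝ, ∀ X : ℝ, 1 ≤ X →
      (N K n X : ℝ) ≤ C * X ^ (max (3 / 4) (2 / 3 + (n : ℝ) / 36) + ε)) ∧
    (∀ k : ℕ, 0 < k → ∀ θ e : ℝ, 0 < θ →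
      (∃ C : ℝ, ∀ X : ℝ, 1 ≤ X → (A K k X : ℝ) ≤ C * X ^ θ) →
      1 ≤ e → 1 / 4 + θ / 2 < e →
      ∃ C : ℝ, ∀ X : ℝ, 1 ≤ X → (G K k 2 X : ℝ) ≤ C * X ^ e) ∧
    (∀ k l : ℕ, 0 < k → l.Prime → l ≠ 2 → ∀ θ e : ℝ, 0 < θ →
      (∃ C : ℝ, ∀ X : ℝ, 1 ≤ X → (A K k X : ℝ) ≤ C * X ^ θ) →
      3 / 4 ≤ e → 1 / 2 + θ / l < e →
      ∃ C : ℝ, ∀ X : ℝ, 1 ≤ X → (G K k l X : ℝ) ≤ C * X ^ e) := by
  refine ⟨?_, ?_, step_two K, step_odd K⟩
  · intro n hn ε hε
    obtain ⟨C, hC⟩ := Pool.Agent.Q258.LQ.fin_aut (K := K) (Ω := AlgebraicClosure K) n hn ε hε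
    exact ⟨C, fun X hX => by rw [N_eq K n hn X]; exact hC X hX⟩
  · intro n hn ε hε
    obtain ⟨C, hC⟩ := Pool.Agent.Q258.LQ.fin_aut_odd (K := K) (Ω := AlgebraicClosure K) n hn ε hε
    exact ⟨C, fun X hX => by rw [N_eq K n hn.pos X]; exact hC X hX⟩
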