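import Mathlib
import Pool.Agent.Q258.LQ.Fin

/-!
# Linnik's asymptotic formula for towers of solvable Galois extensions, all even degrees

Let `K` be a number field. The fields `L` between `K` and its algebraic closure, of a given even
degree `n` over `K`, which are obtained from `K` by successive Galois extensions with solvable group
are counted: the number of these fields with `|d_L| ≤ X` is `~ c X`, `c > 0`. The same with `K` or any
cubic extension of `K` as bottom of the tower, and more generally for any family of bottom fields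
with counting functions `O(X ^ θ)`, `θ < 3/2`.
-/

set_option autoImplicit false

open Filter

namespace Pool.Agent.Results.MP_bf81c2_nt.SolvableTowers

/-- `F ⊆ L`, and `L / F` is a finite Galois extension with solvable Galois group. -/
def SolvableGalois {K : Type} [Field K] (F L : IntermediateField K (AlgebraicClosure K)) : Prop :=
  ∃ h : F ≤ L, FiniteDimensional F (IntermediateField.extendScalars h) ∧
    IsGalois F (IntermediateField.extendScalars h) ∧
    Group.IsSolvable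
      ((IntermediateField.extendScalars h) ≃ₐ[F] (IntermediateField.extendScalars h))

/-- `L` is obtained from a member of `𝓑` by (zero or more) successive solvable Galois extensions. -/
inductive Tower {K : Type} [Field K] (𝓑 : Set (IntermediateField K (AlgebraicClosure K))) :
    IntermediateField K (AlgebraicClosure K) → Prop
  | base (F : IntermediateField K (AlgebraicClosure K)) : F ∈ 𝓑 → Tower 𝓑 F
  | step (F L : IntermediateField K (AlgebraicClosure K)) :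
      Tower 𝓑 F → SolvableGalois F L → Tower 𝓑 L

/-- `L` is a nontrivial solvable Galois extension of a tower `F` above a member of `𝓑`. -/
def Proper {K : Type} [Field K] (𝓑 : Set (IntermediateField K (AlgebraicClosure K))) :
    Set (IntermediateField K (AlgebraicClosure K)) :=
  {L | ∃ F : IntermediateField K (AlgebraicClosure K), Tower 𝓑 F ∧ F ≠ L ∧ SolvableGalois F L}

/-- `N(S, n; X)`: the number of the fields `L` in `S` of degree `n` over `K` with `|d_L| ≤ X`. -/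
noncomputable def N {K : Type} [Field K] (S : Set (IntermediateField K (AlgebraicClosure K)))
    (n : ℕ) (X : ℝ) : ℕ :=
  Set.ncard {L : IntermediateField K (AlgebraicClosure K) | L ∈ S ∧ Module.finrank K L = n ∧
    ∃ h : NumberField L, ((|@NumberField.discr L _ h| : ℤ) : ℝ) ≤ X}

section

variable {K : Type} [Field K] [NumberField K]

theorem tower_iff (𝓑 : Set (IntermediateField K (AlgebraicClosure K)))
    (L : IntermediateField K (AlgebraicClosure K)) :
    Tower 𝓑 L ↔ Pool.Agent.Q258.LQ.STow 𝓑 L := by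
  constructor
  · intro h
    induction h with
    | base F hF => exact Pool.Agent.Q258.LQ.STow.base F hF
    | step F L _ hs ih => exact Pool.Agent.Q258.LQ.STow.step F L ih hs
  · intro h
    induction h with
    | base F hF => exact Tower.base F hF
    | step F L _ hs ih => exact Tower.step F L ih hs

theorem proper_eq (𝓑 : Set (IntermediateField K (AlgebraicClosure K))) :
    Proper 𝓑 = Pool.Agent.Q258.LQ.SAb 𝓑 := by
  ext L
  constructor
  · rintro ⟨F, h1, h2, h3⟩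
    exact ⟨F, (tower_iff 𝓑 F).1 h1, h2, h3⟩
  · rintro ⟨F, h1, h2, h3⟩
    exact ⟨F, (tower_iff 𝓑 F).2 h1, h2, h3⟩

theorem N_eq (S : Set (IntermediateField K (AlgebraicClosure K))) (n : ℕ) (hn : 0 < n) (X : ℝ) :
    N S n X = Set.ncard {L : IntermediateField K (AlgebraicClosure K) | L ∈ S ∧
      Module.finrank K L = n ∧ Pool.Agent.TH444.ML.dsc L ≤ X} := by
  unfold N
  congr 1
  ext L
  simp only [Set.mem_ofPred_eq]
  constructor
  · rintro ⟨h1, h2, h3⟩
    exact ⟨h1, h2, (Pool.Agent.Q258.LQ.dsc_le_iff n hn L h2 X).1 h3⟩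
  · rintro ⟨h1, h2, h3⟩
    exact ⟨h1, h2, (Pool.Agent.Q258.LQ.dsc_le_iff n hn L h2 X).2 h3⟩

/-- the condition on the family of bottom fields -/
theorem base_conv (𝓑 : Set (IntermediateField K (AlgebraicClosure K)))
    (h : ∀ m : ℕ, 0 < m → ∃ θ : ℝ, θ < 3 / 2 ∧ ∃ C : ℝ, ∀ X : ℝ, 1 ≤ X →
      (N 𝓑 m X : ℝ) ≤ C * X ^ θ) :
    ∀ m : ℕ, 0 < m → ∃ θ : ℝ, θ < 3 / 2 ∧ ∃ C : ℝ, ∀ X : ℝ, 1 ≤ X →
      (Set.ncard {L : IntermediateField K (AlgebraicClosure K) | L ∈ 𝓑 ∧
        Module.finrank K L = m ∧ Pool.Agent.TH444.ML.dsc L ≤ X} : ℝ) ≤ C * X ^ θ := by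
  intro m hm
  obtain ⟨θ, hθ, C, hC⟩ := h m hm
  refine ⟨θ, hθ, C, fun X hX => ?_⟩
  rw [← N_eq 𝓑 m hm X]
  exact hC X hX

theorem set_eq (𝓑 : Set (IntermediateField K (AlgebraicClosure K))) (n : ℕ) (hn : 0 < n)
    (hno : ∀ F ∈ 𝓑, Module.finrank K F ≠ n) (X : ℝ) : N {L | Tower 𝓑 L} n X =
      Set.ncard {L : IntermediateField K (AlgebraicClosure K) | L ∈ Pool.Agent.Q258.LQ.SAb 𝓑 ∧
        Module.finrank K L = n ∧ Pool.Agent.TH444.ML.dsc L ≤ X} := by
  rw [N_eq _ n hn]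
  congr 1
  ext L
  constructor
  · rintro ⟨h1, h2, h3⟩
    refine ⟨Pool.Agent.Q258.LQ.sAb_of_degree ((tower_iff 𝓑 L).1 h1) ?_, h2, h3⟩
    intro hL
    exact hno L hL h2
  · rintro ⟨h1, h2, h3⟩
    exact ⟨(tower_iff 𝓑 L).2 (Pool.Agent.Q258.LQ.sTow_of_sAb h1), h2, h3⟩

theorem even_case (𝓑 : Set (IntermediateField K (AlgebraicClosure K)))
    (hb : ⊥ ∈ 𝓑)
    (hB : ∀ m : ℕ, 0 < m → ∃ θ : ℝ, θ < 3 / 2 ∧ ∃ C : ℝ, ∀ X : ℝ, 1 ≤ X →
      (Set.ncard {L : IntermediateField K (AlgebraicClosure K) | L ∈ 𝓑 ∧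
        Module.finrank K L = m ∧ Pool.Agent.TH444.ML.dsc L ≤ X} : ℝ) ≤ C * X ^ θ)
    (n : ℕ) (hn : 2 ≤ n) (he : Even n) (hno : ∀ F ∈ 𝓑, Module.finrank K F ≠ n) :
    ∃ c : ℝ, 0 < c ∧
      Tendsto (fun X : ℝ => (N {L | Tower 𝓑 L} n X : ℝ) / X) atTop (nhds c) := by
  obtain ⟨k, hk⟩ := he
  have hk0 : 0 < k := by omega
  have hk2 : n = 2 * k := by omega
  obtain ⟨F, hF1, hF2⟩ := Pool.Agent.Q258.LQ.exists_PT 𝓑 hb k hk0
  obtain ⟨c, hc, hlim⟩ := Pool.Agent.Q258.LQ.fin_even 𝓑 hB k hk0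
    ⟨F, (Pool.Agent.Q258.LQ.sTow_iff 𝓑 F).2 hF1, hF2⟩
  refine ⟨c, hc, ?_⟩
  subst hk2
  simp only [set_eq 𝓑 (2 * k) (by omega) hno]
  exact hlim

theorem odd_case (𝓑 : Set (IntermediateField K (AlgebraicClosure K)))
    (hB : ∀ m : ℕ, 0 < m → ∃ θ : ℝ, θ < 3 / 2 ∧ ∃ C : ℝ, ∀ X : ℝ, 1 ≤ X →
      (Set.ncard {L : IntermediateField K (AlgebraicClosure K) | L ∈ 𝓑 ∧
        Module.finrank K L = m ∧ Pool.Agent.TH444.ML.dsc L ≤ X} : ℝ) ≤ C * X ^ θ)
    (n : ℕ) (hn : 2 ≤ n) (ho : Odd n) (hno : ∀ F ∈ 𝓑, Module.finrank K F ≠ n) :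
    ∃ η : ℝ, η < 1 ∧ ∃ C : ℝ, ∀ X : ℝ, 1 ≤ X → (N {L | Tower 𝓑 L} n X : ℝ) ≤ C * X ^ η := by
  obtain ⟨η, hη, C, hC⟩ := Pool.Agent.Q258.LQ.fin_odd 𝓑 hB n ho
  refine ⟨η, hη, C, fun X hX => ?_⟩
  rw [set_eq 𝓑 n (by omega) hno]
  exact hC X hX

theorem proper_case (𝓑 : Set (IntermediateField K (AlgebraicClosure K)))
    (hB : ∀ m : ℕ, 0 < m → ∃ θ : ℝ, θ < 3 / 2 ∧ ∃ C : ℝ, ∀ X : ℝ, 1 ≤ X →
      (N 𝓑 m X : ℝ) ≤ C * X ^ θ) (k : ℕ) (hk : 0 < k)
    (hne : ∃ F : IntermediateField K (AlgebraicClosure K), Tower 𝓑 F ∧ Module.finrank K F = k) :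
    ∃ c : ℝ, 0 < c ∧
      Tendsto (fun X : ℝ => (N (Proper 𝓑) (2 * k) X : ℝ) / X) atTop (nhds c) := by
  obtain ⟨F, hF1, hF2⟩ := hne
  obtain ⟨c, hc, hlim⟩ := Pool.Agent.Q258.LQ.fin_even 𝓑 (base_conv 𝓑 hB) k hk
    ⟨F, (tower_iff 𝓑 F).1 hF1, hF2⟩
  refine ⟨c, hc, ?_⟩
  simp only [N_eq _ (2 * k) (by omega : 0 < 2 * k), proper_eq]
  exact hlim

theorem bot_ne (n : ℕ) (hn : 2 ≤ n) :
    ∀ F ∈ ({⊥} : Set (IntermediateField K (AlgebraicClosure K))), Module.finrank K F ≠ n := by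
  intro F hF
  rw [Set.mem_singleton_iff.1 hF, IntermediateField.finrank_bot]
  omega

theorem cubic_ne (n : ℕ) (hn : 2 ≤ n) (he : Even n) :
    ∀ F ∈ {F : IntermediateField K (AlgebraicClosure K) | F = ⊥ ∨ Module.finrank K F = 3},
      Module.finrank K F ≠ n := by
  rintro F (hF | hF)
  · rw [hF, IntermediateField.finrank_bot]
    omega
  · intro h
    rw [h] at hF
    subst hF
    exact absurd he (by decide)

theorem mem_cubic : (⊥ : IntermediateField K (AlgebraicClosure K)) ∈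
    {F : IntermediateField K (AlgebraicClosure K) | F = ⊥ ∨ Module.finrank K F = 3} :=
  Or.inl rfl

theorem part_one (n : ℕ) (hn : 2 ≤ n) (he : Even n) : ∃ c : ℝ, 0 < c ∧
    Tendsto (fun X : ℝ => (N {L | Tower {(⊥ : IntermediateField K (AlgebraicClosure K))} L} n X :
      ℝ) / X) atTop (nhds c) :=
  even_case {(⊥ : IntermediateField K (AlgebraicClosure K))} (Set.mem_singleton _)
    Pool.Agent.Q258.LQ.base_bot n hn he (bot_ne n hn)

theorem part_two (n : ℕ) (hn : 2 ≤ n) (he : Even n) : ∃ c : ℝ, 0 < c ∧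
    Tendsto (fun X : ℝ => (N {L | Tower {F : IntermediateField K (AlgebraicClosure K) |
      F = ⊥ ∨ Module.finrank K F = 3} L} n X : ℝ) / X) atTop (nhds c) :=
  even_case {F : IntermediateField K (AlgebraicClosure K) | F = ⊥ ∨ Module.finrank K F = 3}
    mem_cubic Pool.Agent.Q258.LQ.base_cubic n hn he (cubic_ne n hn he)

end

end Pool.Agent.Results.MP_bf81c2_nt.SolvableTowers

open Pool.Agent.Results.MP_bf81c2_nt.SolvableTowers in
/-- Linnik's asymptotic formula `N ~ c X` for the extensions of `K` of even degree `n` which are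
towers of solvable Galois extensions above `K`, or above `K` or a cubic extension of `K`; a power
saving for the towers of odd degree; and the general theorem about families of bottom fields. -/
theorem Pool.Agent.Results.MP_bf81c2_nt.SolvableTowers.result (K : Type) [Field K]
    [NumberField K] :
    (∀ n : ℕ, 2 ≤ n → Even n → ∃ c : ℝ, 0 < c ∧
      Tendsto (fun X : ℝ => (N {L | Tower {(⊥ : IntermediateField K (AlgebraicClosure K))} L} n X :
        ℝ) / X) atTop (nhds c)) ∧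
    (∀ n : ℕ, 2 ≤ n → Even n → ∃ c : ℝ, 0 < c ∧
      Tendsto (fun X : ℝ => (N {L | Tower {F : IntermediateField K (AlgebraicClosure K) |
        F = ⊥ ∨ Module.finrank K F = 3} L} n X : ℝ) / X) atTop (nhds c)) ∧
    (∀ n : ℕ, 2 ≤ n → Odd n → ∃ η : ℝ, η < 1 ∧ ∃ C : ℝ, ∀ X : ℝ, 1 ≤ X →
      (N {L | Tower {(⊥ : IntermediateField K (AlgebraicClosure K))} L} n X : ℝ) ≤ C * X ^ η) ∧
    (∀ 𝓑 : Set (IntermediateField K (AlgebraicClosure K)),
      (∀ m : ℕ, 0 < m → ∃ θ : ℝ, θ < 3 / 2 ∧ ∃ C : ℝ, ∀ X : ℝ, 1 ≤ X →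
        (N 𝓑 m X : ℝ) ≤ C * X ^ θ) →
      ∀ k : ℕ, 0 < k → (∃ F : IntermediateField K (AlgebraicClosure K), Tower 𝓑 F ∧
        Module.finrank K F = k) →
      ∃ c : ℝ, 0 < c ∧
        Tendsto (fun X : ℝ => (N (Proper 𝓑) (2 * k) X : ℝ) / X) atTop (nhds c)) := by
  exact ⟨part_one, part_two, fun n hn ho => odd_case _ Pool.Agent.Q258.LQ.base_bot n hn ho
    (bot_ne n hn), proper_case⟩
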